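import Pool.Agent.Helper49.TP.StM

/-!
# Project TP: approximate decompositions with a reference weight
-/

set_option autoImplicit false

namespace Pool.Agent.Helper11.TP

open Finset Pool.Agent.Helper49.TP Pool.Agent.Helper93.IA Pool.Agent.Helper38.IA

theorem hAPY : StAPY := by
  intro hNIB hFRX δ c0 Λ hδ hδ8 hc0 hΛ
  obtain ⟨ε, hε, hε', hεδ, h⟩ := hFRX δ c0 Λ hδ (by linarith) hc0 hΛ
  refine ⟨ε, hε, hε', ?_⟩
  intro g hg
  obtain ⟨δ', n0, hδ', hN⟩ := hNIB (Λ + c0) g (by linarith) hg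
  have hb0 : 0 < min ε (δ' * δ) := lt_min hε (by positivity)
  refine ⟨min ε (δ' * δ), max n0 1, hb0, ?_⟩
  intro α β γ _ _ _ _ _ _ n hn ha hb hc A B C κ x0 hκ0 hκ hnear himb hx0
  have hn0 : n0 ≤ n := le_trans (le_max_left _ _) hn
  have hn1 : 0 < n := lt_of_lt_of_le Nat.one_pos (le_trans (le_max_right _ _) hn)
  have hle : (κ + ε) * (n : ℝ) ≤ (1 / 4 - δ) * n :=
    mul_le_mul_of_nonneg_right (by linarith) (Nat.cast_nonneg n)
  have hmis : Mis A B C ((1 / 4 - δ) * n) := by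
    obtain ⟨⟨hA1, hA2⟩, ⟨hB1, hB2⟩, hC1, hC2⟩ := hnear
    exact ⟨⟨fun a => (hA1 a (mem_univ a)).2.trans hle, fun b => (hA2 b (mem_univ b)).2.trans hle⟩,
      ⟨fun b => (hB1 b (mem_univ b)).2.trans hle, fun c => (hB2 c (mem_univ c)).2.trans hle⟩,
      fun c => (hC1 c (mem_univ c)).2.trans hle, fun a => (hC2 a (mem_univ a)).2.trans hle⟩
  obtain ⟨x, hx0, hx6, hxs, h1, h2, h3, h4, h5, h6⟩ := h α β γ n hn1 ha hb hc A B C
    (min ε (δ' * δ)) x0 hmis hb0.le (min_le_left _ _) himb hx0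
  have hd : 1 - δ' ≤ 1 - min ε (δ' * δ) / δ := by
    have h7 := min_le_right ε (δ' * δ)
    have h8 : min ε (δ' * δ) / δ ≤ δ' := by
      rw [div_le_iff₀ hδ]; exact h7
    linarith
  exact hN α β γ n hn0 ha hb hc A B C x hx0 hx6 hxs (fun a b' h => le_trans hd (h1 a b' h)) h2
    (fun b' c h => le_trans hd (h3 b' c h)) h4 (fun c a h => le_trans hd (h5 c a h)) h6

end Pool.Agent.Helper11.TP
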