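import Pool.Agent.Helper49.TP.StF

/-!
# Project TP: the Farkas lemma with sign conditions
-/

set_option autoImplicit false

namespace Pool.Agent.Helper11.TP

open Finset Pool.Agent.Helper49.TP Pool.Agent.Helper93.IA

private abbrev Ev (n : ℕ) : Type :=
  (Fin n → Fin n → ℝ) × (Fin n → Fin n → ℝ) × (Fin n → Fin n → ℝ)

private def Lf {n : ℕ} (T : Fin n × Fin n × Fin n) : Ev n →ₗ[ℝ] ℝ where
  toFun g := g.1 T.1 T.2.1 + g.2.1 T.2.1 T.2.2 + g.2.2 T.2.2 T.1
  map_add' g h := by
    simp only [Prod.fst_add, Prod.snd_add, Pi.add_apply]; ring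
  map_smul' c g := by
    simp only [Prod.smul_fst, Prod.smul_snd, Pi.smul_apply, smul_eq_mul, RingHom.id_apply]; ring

private noncomputable def Bf {n : ℕ} (FA FB FC : Fin n → Fin n → ℝ) : Ev n →ₗ[ℝ] ℝ where
  toFun g := n * Dv FA FB FC g.1 g.2.1 g.2.2
  map_add' g h := by
    simp only [Dv, Prod.fst_add, Prod.snd_add, Pi.add_apply, mul_add, Finset.sum_add_distrib]
    ring
  map_smul' c g := by
    simp only [Dv, Prod.smul_fst, Prod.smul_snd, Pi.smul_apply, smul_eq_mul, RingHom.id_apply,
      mul_left_comm _ c, ← Finset.mul_sum]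
    ring

theorem hFFK : StFFK := by
  classical
  intro n Λ FA FB FC x hΛ hx hno
  by_contra hcon
  have hall : ∀ α β γ : Fin n → Fin n → ℝ, Sgn Λ x α β γ → 0 ≤ Dv FA FB FC α β γ := by
    intro α β γ h
    by_contra h2
    exact hcon ⟨α, β, γ, h, not_le.1 h2⟩
  obtain ⟨w, hw, hb⟩ := Pool.Agent.Helper88.CC.farkas (E := Ev n)
    (ι := (Fin n × Fin n × Fin n) × Bool)
    (univ.filter fun p : (Fin n × Fin n × Fin n) × Bool =>
      (p.2 = true ∧ x p.1.1 p.1.2.1 p.1.2.2 < Λ) ∨ (p.2 = false ∧ 0 < x p.1.1 p.1.2.1 p.1.2.2))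
    (fun p => if p.2 = true then Lf p.1 else - Lf p.1) (Bf FA FB FC) (by
      intro g hg
      have hs : Sgn Λ x g.1 g.2.1 g.2.2 := by
        intro r c s
        constructor
        · intro h
          have := hg ((r, c, s), true) (by simp [h])
          simpa [Lf] using this
        · intro h
          have h2 := hg ((r, c, s), false) (by simp [h])
          have h3 : 0 ≤ -(g.1 r c + g.2.1 c s + g.2.2 s r) := by simpa [Lf] using h2
          linarith
      exact mul_nonneg (Nat.cast_nonneg n) (hall _ _ _ hs))
  set y : Fin n → Fin n → Fin n → ℝ := fun r c s =>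
    (if x r c s < Λ then w ((r, c, s), true) else 0) -
      (if 0 < x r c s then w ((r, c, s), false) else 0) with hy
  have hkey : ∀ α β γ : Fin n → Fin n → ℝ, n * Dv FA FB FC α β γ =
      ∑ r, ∑ c, ∑ s, y r c s * (α r c + β c s + γ s r) := by
    intro α β γ
    have h1 : Bf FA FB FC (α, β, γ) = n * Dv FA FB FC α β γ := rfl
    rw [← h1, hb, LinearMap.sum_apply, Finset.sum_filter, Fintype.sum_prod_type,
      Fintype.sum_prod_type]
    refine Finset.sum_congr rfl fun r _ => ?_
    rw [Fintype.sum_prod_type]
    refine Finset.sum_congr rfl fun c _ => ?_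
    refine Finset.sum_congr rfl fun s _ => ?_
    rw [Fintype.sum_bool]
    simp only [hy, LinearMap.smul_apply, smul_eq_mul, if_true, true_and, false_and, or_false,
      Bool.false_eq_true, if_false, false_or, Bool.true_eq_false, LinearMap.neg_apply]
    have h2 : Lf (r, c, s) (α, β, γ) = α r c + β c s + γ s r := rfl
    rw [h2]
    split_ifs <;> ring
  refine hno y ?_ ?_ ?_ ?_ ?_
  · intro r c s h
    have h1 : ¬ (0 < x r c s) := by rw [h]; exact lt_irrefl 0
    simp only [hy, if_neg h1, sub_zero]
    split_ifs
    · exact hw _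
    · exact le_rfl
  · intro r c s h
    have h1 : ¬ (x r c s < Λ) := by rw [h]; exact lt_irrefl Λ
    simp only [hy, if_neg h1, zero_sub]
    split_ifs
    · exact neg_nonpos.2 (hw _)
    · simp
  · intro r c
    have h := hkey (fun r' c' => if r' = r then (if c' = c then 1 else 0) else 0) 0 0
    have h1 : Dv FA FB FC (fun r' c' => if r' = r then (if c' = c then 1 else 0) else 0) 0 0
        = FA r c - 1 := by
      unfold Dv
      simp only [Pi.zero_apply, mul_zero, Finset.sum_const_zero, add_zero]
      rw [Finset.sum_eq_single r (fun b _ hb => by simp [hb]) (fun h => by simp at h),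
        Finset.sum_eq_single c (fun b _ hb => by simp [hb]) (fun h => by simp at h)]
      simp
    have h2 : ∑ r', ∑ c', ∑ s, y r' c' s *
        ((if r' = r then (if c' = c then (1 : ℝ) else 0) else 0) + (0 : Fin n → Fin n → ℝ) c' s +
          (0 : Fin n → Fin n → ℝ) s r') = ∑ s, y r c s := by
      rw [Finset.sum_eq_single r (fun b _ hb => by simp [hb]) (fun h => by simp at h),
        Finset.sum_eq_single c (fun b _ hb => by simp [hb]) (fun h => by simp at h)]
      simp
    rw [h1, h2] at h
    exact h.symm
  · intro c s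
    have h := hkey 0 (fun c' s' => if c' = c then (if s' = s then 1 else 0) else 0) 0
    have h1 : Dv FA FB FC 0 (fun c' s' => if c' = c then (if s' = s then 1 else 0) else 0) 0
        = FB c s - 1 := by
      unfold Dv
      simp only [Pi.zero_apply, mul_zero, Finset.sum_const_zero, add_zero, zero_add]
      rw [Finset.sum_eq_single c (fun b _ hb => by simp [hb]) (fun h => by simp at h),
        Finset.sum_eq_single s (fun b _ hb => by simp [hb]) (fun h => by simp at h)]
      simp
    have h2 : ∑ r, ∑ c', ∑ s', y r c' s' *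
        ((0 : Fin n → Fin n → ℝ) r c' + (if c' = c then (if s' = s then (1 : ℝ) else 0) else 0) +
          (0 : Fin n → Fin n → ℝ) s' r) = ∑ r, y r c s := by
      refine Finset.sum_congr rfl fun r _ => ?_
      rw [Finset.sum_eq_single c (fun b _ hb => by simp [hb]) (fun h => by simp at h),
        Finset.sum_eq_single s (fun b _ hb => by simp [hb]) (fun h => by simp at h)]
      simp
    rw [h1, h2] at h
    exact h.symm
  · intro s r
    have h := hkey 0 0 (fun s' r' => if s' = s then (if r' = r then 1 else 0) else 0)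
    have h1 : Dv FA FB FC 0 0 (fun s' r' => if s' = s then (if r' = r then 1 else 0) else 0)
        = FC s r - 1 := by
      unfold Dv
      simp only [Pi.zero_apply, mul_zero, Finset.sum_const_zero, add_zero, zero_add]
      rw [Finset.sum_eq_single s (fun b _ hb => by simp [hb]) (fun h => by simp at h),
        Finset.sum_eq_single r (fun b _ hb => by simp [hb]) (fun h => by simp at h)]
      simp
    have h2 : ∑ r', ∑ c, ∑ s', y r' c s' *
        ((0 : Fin n → Fin n → ℝ) r' c + (0 : Fin n → Fin n → ℝ) c s' +
          (if s' = s then (if r' = r then (1 : ℝ) else 0) else 0)) = ∑ c, y r c s := by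
      rw [Finset.sum_eq_single r (fun b _ hb => by simp [hb]) (fun h => by simp at h)]
      refine Finset.sum_congr rfl fun c _ => ?_
      rw [Finset.sum_eq_single s (fun b _ hb => by simp [hb]) (fun h => by simp at h)]
      simp
    rw [h1, h2] at h
    exact h.symm

end Pool.Agent.Helper11.TP
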